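import Mathlib
import Pool.Agent.X253.C3.Deg3
import Pool.Agent.X253.CF.Ex

/-!
# The `3`-primary part of the Tate-Shafarevich groups over the fields `ℚ(ω, ∛l₁, …, ∛l_n)`

`K` is the field of third roots of unity and `E_D : y² + D y = x³`.  Let `D` in `𝓞 K` be cube-free,
`1` modulo `3`, with norm not `1` modulo `9`, such that `E_D(K)` is finite and
`Ш(E_D / K)[3^∞] = 0`; these `D` are exactly the proportion
`∏_{i ≥ 0} (1 - 3^{-(2 i + 1)}) = 0.639...` of all the `D` of the class, ordered by the norm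
(`Pool/Agent/X253/CF`).  Then there is an infinite set `Q` of primes of `𝓞 K` such that for all finite subsets `S`
of `Q` and for the extension `F = K(∛l : l ∈ S)` of `K`, which is abelian of degree `3 ^ #S`, the group
`E_D(F)` is finite and the `3`-primary part of `Ш(E_D / F)` is killed by `3 ^ #S = [F : K]`.

`Ш(E_D / F)` is the Tate-Shafarevich group of the abelian variety `Res_{F/ℚ} E_D` over `ℚ`, of dimension
`2 · 3 ^ #S` (Milne), and its isogeny factors are the Weil restrictions to `ℚ` of the `3 ^ #S` cubic twists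
`E_{D'}`, `D' = D ∏ l ^ m_l`.

The proof: by Chebotarev's theorem and the weighted Laplacian criterion for the cubic residue symbols
(`X253/C3/Fam2`) the `3`-primary parts of `Ш(E_{D'} / K)` are trivial and the groups `E_{D'}(K)` finite for
all `m_l = 0, 1, 2`.  For an element `x` of `Ш(E_D / F)[3^∞]` the sum of the restrictions of the twisted
corestrictions of `x` to the twists is `3 ^ #S x` (`X253/C3/Cor3`, from the corestriction of `Y715/CS` and
`Y682/YS`), and similarly for the points (`X253/C3/Pts3`).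
-/

set_option autoImplicit false

namespace Pool.Agent.Results.MP_a43263_nt.CubicTowersSha

open NumberField
open Pool.Agent.TH841.NF.D (Sha)

/-- The curve `E_D : y² + D y = x³`. -/
def curve {K : Type} [Field K] (D : K) : WeierstrassCurve K := ⟨0, 0, D, 0, 0⟩

variable {K : Type} [Field K] [NumberField K]

/-- `D` is cube-free and `1` modulo `3`, and its norm is not `1` modulo `9`. -/
def InClass (D : 𝓞 K) : Prop :=
  (3 : 𝓞 K) ∣ D - 1 ∧ (∀ p : 𝓞 K, Prime p → ¬ p ^ 3 ∣ D) ∧ ¬ (9 : ℤ) ∣ Algebra.norm ℤ D - 1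

/-- `E_D(K)` is finite and the `3`-primary part of `Ш(E_D / K)` is trivial. -/
def FiniteAndTrivial (D : 𝓞 K) : Prop :=
  Finite (curve (D : K)).toAffine.Point ∧ ∀ (n : ℕ) (x : Sha (curve (D : K))), 3 ^ n • x = 0 → x = 0

/-- `F = K(∛l : l ∈ S)`. -/
def Generated (F : Type) [Field F] [NumberField F] [Algebra K F] (S : Finset (𝓞 K)) : Prop :=
  ∃ r : 𝓞 K → F, (∀ l ∈ S, r l ^ 3 = algebraMap K F l) ∧
    ∀ L : Subfield F, (∀ a : K, algebraMap K F a ∈ L) → (∀ l ∈ S, r l ∈ L) → L = ⊤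

/-- There is an infinite set `Q` of primes `l = 1` modulo `3` of norm `1` modulo `9` that do not
divide `D`, such that for all finite subsets `S` of `Q` the curve `E_{D'}`, `D' = D ∏ l ^ m_l`, has finitely
many points over `K` and `Ш(E_{D'} / K)[3^∞] = 0` for all `m_l = 0, 1, 2`, and for every extension
`F = K(∛l : l ∈ S)` the degree is `3 ^ #S`, the group `E_D(F)` is finite and `3 ^ #S` kills the
`3`-primary part of `Ш(E_D / F)`. -/
def HasTowers (D : 𝓞 K) : Prop :=
  ∃ Q : Set (𝓞 K), Q.Infinite ∧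
    (∀ l ∈ Q, Prime l ∧ (3 : 𝓞 K) ∣ l - 1 ∧ (9 : ℤ) ∣ Algebra.norm ℤ l - 1 ∧ ¬ l ∣ D) ∧
    ∀ S : Finset (𝓞 K), (∀ l ∈ S, l ∈ Q) →
      (∀ m : 𝓞 K → ℕ, (∀ l ∈ S, m l < 3) → FiniteAndTrivial (D * ∏ l ∈ S, l ^ m l)) ∧
      ∀ (F : Type) [Field F] [NumberField F] [Algebra K F], Generated F S →
        Module.finrank K F = 3 ^ S.card ∧
        Finite (curve (algebraMap K F D)).toAffine.Point ∧
        ∀ (n : ℕ) (x : Sha (curve (algebraMap K F D))), 3 ^ n • x = 0 → 3 ^ S.card • x = 0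

/-- **The towers.** Every cube-free `D` of the class with `E_D(K)` finite and `Ш(E_D / K)[3^∞] = 0` has
towers of cubic extensions over which `E_D` has finitely many points and the `3`-primary part of `Ш` is
killed by the degree; these `D` are exactly
the proportion `0.639...` of the class. -/
theorem result (K : Type) [Field K] [NumberField K] [IsCyclotomicExtension {3} ℚ K] :
    (∀ D : 𝓞 K, InClass D → FiniteAndTrivial D → HasTowers D) ∧
    (∃ c : ℝ, 0 < c ∧ ∃ X₀ : ℕ, ∀ X : ℕ, X₀ ≤ X →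
      c * X ≤ ({D : 𝓞 K | Algebra.norm ℤ D ≤ X ∧ InClass D}.ncard : ℝ)) ∧
    Filter.Tendsto (fun X : ℕ =>
      ({D : 𝓞 K | Algebra.norm ℤ D ≤ X ∧ InClass D ∧ FiniteAndTrivial D}.ncard : ℝ) /
        ({D : 𝓞 K | Algebra.norm ℤ D ≤ X ∧ InClass D}.ncard : ℝ))
      Filter.atTop (nhds (∏' i : ℕ, (1 - (1 / 3 : ℝ) ^ (2 * i + 1)))) ∧
    0.639 < ∏' i : ℕ, (1 - (1 / 3 : ℝ) ^ (2 * i + 1)) ∧
    ∏' i : ℕ, (1 - (1 / 3 : ℝ) ^ (2 * i + 1)) < 0.6391 := by
  refine ⟨fun D hD hT => ?_, Pool.Agent.X253.CF.prop_exact K⟩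
  obtain ⟨Q, h1, h2, h3⟩ := Pool.Agent.X253.C3.tower3 K D hD hT
  refine ⟨Q, h1, h2, fun S hS => ⟨fun m hm => ((h3 S hS).1 m hm).2, fun F _ _ _ hF => ?_⟩⟩
  obtain ⟨r, hr, hgen⟩ := hF
  exact (h3 S hS).2 F r hr hgen

end Pool.Agent.Results.MP_a43263_nt.CubicTowersSha
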