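import Mathlib
import Pool.Agent.Y723.SJ.Def
import Pool.Agent.Y723.SJ.Cmp
import Pool.Agent.TH344.SG.Cor
import Pool.Agent.X257.JM.Fin

/-!
# Bounded moments of the 2-part of `Ш` over all the split hyperelliptic Jacobians of genus `g`

Let `g ≥ 1` and `2 ^ k ≤ 4 g` (so `k = 1` and `k = 2` are allowed for all `g`, and `k` may be as large
as `2 + log₂ g`). All the curves `y² = (x - a_0) (x - a_1) ... (x - a_{2 g})` with distinct integers
`a_i`, ordered by `max |a_i|`; no curve is left out. The `k`-th moments of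
`#(J(ℚ) / 2 ^ m J(ℚ)) ^ (1 / m) * #Ш(J)[2 ^ m] ^ (1 / m)`, `J` the Jacobian, are bounded, uniformly
in `m`, and so is the `k`-th moment of `#(J(ℚ) / 2 J(ℚ)) * 2 ^ corank Ш(J)[2^∞]`.

The group of the points of `J` over an algebraically closed field, the absolute Galois group, the
cocycles and `Ш(J)` are defined in `Pool.Agent.Y723.SJ.Def`.
-/

set_option autoImplicit false

namespace Pool.Agent.Results.MP_a43263_nt.FullFamilyMoments

open Finset Filter Topology Pool.Agent.Y723.SJ Pool.Agent.TH344.SG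

/-- the tuples of distinct integers of absolute value at most `X` -/
def Fam (g X : ℕ) : Set (Fin (2 * g + 1) → ℤ) := {a | Function.Injective a ∧ ∀ i, |a i| ≤ X}

/-- the number of the elements of `Ш(J)` killed by `n`, `J` the Jacobian of `y² = ∏ (x - a i)` -/
noncomputable def sha {g : ℕ} (n : ℕ) (a : Fin (2 * g + 1) → ℤ) : ℕ := Nat.card (ShaTorsion a n)

/-- the number of the elements of `J(ℚ) / n J(ℚ)` -/
noncomputable def quo {g : ℕ} (n : ℕ) (a : Fin (2 * g + 1) → ℤ) : ℕ := Nat.card (QuotQ a n)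

/-- The corank of the 2-primary part of `Ш(J)`: the largest `t` such that `(ℤ / 2 ^ n) ^ t` embeds
in `Ш(J)` for all `n`. (The 2-primary part is the direct sum of `t` copies of `ℚ_2 / ℤ_2` and a
finite group; it is finite if and only if `t = 0`.) -/
noncomputable def corank {g : ℕ} (a : Fin (2 * g + 1) → ℤ) : ℕ := corank2 (Sha a)

lemma Fam_eq (g X : ℕ) : Fam g X = (Pool.Agent.Y723.JG.Fm (2 * g + 1) X : Set (Fin (2 * g + 1) → ℤ)) := by
  classical
  ext a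
  unfold Fam Pool.Agent.Y723.JG.Fm
  rw [Set.mem_ofPred_eq, mem_coe, mem_filter, Pool.Agent.TH344.JG.BadAux.mem_box, and_comm]
  simp only [mem_Icc, abs_le]

lemma Fam_ncard (g X : ℕ) : (Fam g X).ncard = (Pool.Agent.Y723.JG.Fm (2 * g + 1) X).card := by
  rw [Fam_eq, Set.ncard_coe_finset]

/-- one curve -/
lemma curve {g : ℕ} {a : Fin (2 * g + 1) → ℤ} (ha : Function.Injective a) (m : ℕ) :
    Finite (ShaTorsion a (2 ^ m)) ∧ Finite (QuotQ a (2 ^ m)) ∧
      quo (2 ^ m) a * sha (2 ^ m) a ≤ (Pool.Agent.TH344.JG.SelJ a).ncard ^ m ∧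
      quo 2 a * 2 ^ corank a ≤ (Pool.Agent.TH344.JG.SelJ a).ncard := by
  have hfin := Pool.Agent.Y723.JG.selJ_fin ⟨g, rfl⟩ ha
  obtain ⟨h1, h2, h3⟩ := sha_sel_pow ha hfin m
  exact ⟨h1, h2, h3, cor_le ha hfin⟩

lemma Fam_tendsto (g : ℕ) (hg : 1 ≤ g) : Tendsto (fun X : ℕ => (Fam g X).ncard) atTop atTop := by
  simp only [Fam_ncard]
  obtain ⟨X0, h⟩ := Pool.Agent.Y723.JG.Fm_card (2 * g + 1) (by omega)
  refine tendsto_atTop_mono' atTop ?_ tendsto_id
  filter_upwards [eventually_ge_atTop X0, eventually_ge_atTop 1] with X h1 h2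
  have h3 : (X : ℝ) ^ (2 * g + 1) ≤ (Pool.Agent.Y723.JG.Fm (2 * g + 1) X).card := h X h1
  have h4 : (X : ℝ) ≤ (X : ℝ) ^ (2 * g + 1) := by
    have h5 : (1 : ℝ) ≤ X := by exact_mod_cast h2
    calc (X : ℝ) = (X : ℝ) ^ 1 := (pow_one _).symm
      _ ≤ _ := pow_le_pow_right₀ h5 (by omega)
  have h6 : (X : ℝ) ≤ ((Pool.Agent.Y723.JG.Fm (2 * g + 1) X).card : ℝ) := h4.trans h3
  exact_mod_cast h6

/-- **Theorem.** Let `g ≥ 1`, `k ≥ 1` and `2 ^ k ≤ 4 g`. The set `Fam g X` is finite, its number of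
elements tends to infinity with `X`, and for the Jacobian `J` of `y² = ∏ (x - a i)` with `a` in
`Fam g X` the groups `Ш(J)[2 ^ m]` and `J(ℚ) / 2 ^ m J(ℚ)` are finite. There is `C` such that for all
`X` the sum of `(#(J(ℚ) / 2 ^ m J(ℚ)) * #Ш(J)[2 ^ m]) ^ (k / m)` over all the tuples of `Fam g X` is
at most `C` times the number of the elements of `Fam g X`, for all `m ≥ 1`, and so is the sum of
`(#(J(ℚ) / 2 J(ℚ)) * 2 ^ corank) ^ k`; and at most `C 2 ^ (-k r)` times the number of the elements of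
`Fam g X` tuples of `Fam g X` satisfy `#(J(ℚ) / 2 J(ℚ)) * 2 ^ corank ≥ 2 ^ r`, for all `r`. -/
theorem result (g k : ℕ) (hg : 1 ≤ g) (hk : 1 ≤ k) (h : 2 ^ k ≤ 4 * g) :
    (∀ X : ℕ, (Fam g X).Finite ∧ ∀ a ∈ Fam g X, ∀ m : ℕ,
      Finite (ShaTorsion a (2 ^ m)) ∧ Finite (QuotQ a (2 ^ m))) ∧
    Tendsto (fun X : ℕ => (Fam g X).ncard) atTop atTop ∧
    ∃ C : ℝ, ∀ X : ℕ,
      (∀ m : ℕ, 1 ≤ m → ∑ᶠ a ∈ Fam g X,
        ((quo (2 ^ m) a * sha (2 ^ m) a : ℕ) : ℝ) ^ ((k : ℝ) / m) ≤ C * (Fam g X).ncard) ∧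
      ∑ᶠ a ∈ Fam g X, ((quo 2 a * 2 ^ corank a : ℕ) : ℝ) ^ k ≤ C * (Fam g X).ncard ∧
      ∀ r : ℕ, (({a : Fin (2 * g + 1) → ℤ | a ∈ Fam g X ∧ 2 ^ r ≤ quo 2 a * 2 ^ corank a}.ncard : ℕ) :
        ℝ) ≤ C * (Fam g X).ncard / 2 ^ (k * r) := by
  classical
  have hinj : ∀ {X : ℕ} {a : Fin (2 * g + 1) → ℤ},
      a ∈ Pool.Agent.Y723.JG.Fm (2 * g + 1) X → Function.Injective a := by
    intro X a ha
    unfold Pool.Agent.Y723.JG.Fm at ha
    exact (mem_filter.1 ha).2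
  refine ⟨fun X => ?_, Fam_tendsto g hg, ?_⟩
  · refine ⟨?_, fun a ha m => ⟨(curve ha.1 m).1, (curve ha.1 m).2.1⟩⟩
    rw [Fam_eq]
    exact finite_toSet _
  obtain ⟨C, hC0, hC⟩ := Pool.Agent.X257.JM.full g k hg hk h
  have h2 : ∀ X, ∑ᶠ a ∈ Fam g X, ((quo 2 a * 2 ^ corank a : ℕ) : ℝ) ^ k ≤
      C * (Fam g X).ncard := by
    intro X
    rw [Fam_ncard, Fam_eq, finsum_mem_coe_finset]
    refine (sum_le_sum fun a ha => ?_).trans (hC X)
    exact pow_le_pow_left₀ (Nat.cast_nonneg _) (by exact_mod_cast (curve (hinj ha) 0).2.2.2) k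
  refine ⟨C, fun X => ⟨fun m hm => ?_, h2 X, fun r => ?_⟩⟩
  · rw [Fam_ncard, Fam_eq, finsum_mem_coe_finset]
    refine (sum_le_sum fun a ha => ?_).trans (hC X)
    have h4 : ((quo (2 ^ m) a * sha (2 ^ m) a : ℕ) : ℝ) ≤
        ((Pool.Agent.TH344.JG.SelJ a).ncard : ℝ) ^ m := by
      exact_mod_cast (curve (hinj ha) m).2.2.1
    have hm0 : (m : ℝ) ≠ 0 := by exact_mod_cast (by omega : m ≠ 0)
    refine (Real.rpow_le_rpow (Nat.cast_nonneg _) h4 (by positivity)).trans (le_of_eq ?_)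
    rw [← Real.rpow_natCast, ← Real.rpow_mul (Nat.cast_nonneg _), mul_div_cancel₀ _ hm0,
      Real.rpow_natCast]
  · have h3 := h2 X
    rw [le_div_iff₀ (by positivity)]
    refine le_trans ?_ h3
    have hset : {a : Fin (2 * g + 1) → ℤ | a ∈ Fam g X ∧ 2 ^ r ≤ quo 2 a * 2 ^ corank a} =
        (((Pool.Agent.Y723.JG.Fm (2 * g + 1) X).filter
          (fun a => 2 ^ r ≤ quo 2 a * 2 ^ corank a) : Finset (Fin (2 * g + 1) → ℤ)) :
          Set (Fin (2 * g + 1) → ℤ)) := by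
      ext a
      rw [Set.mem_ofPred_eq, Fam_eq, mem_coe, mem_coe, mem_filter]
    rw [hset, Set.ncard_coe_finset, Fam_eq, finsum_mem_coe_finset, ← nsmul_eq_mul, ← sum_const]
    refine (sum_le_sum fun a ha => ?_).trans
      (sum_le_sum_of_subset_of_nonneg (filter_subset _ _) fun _ _ _ => by positivity)
    have h5 : (2 : ℝ) ^ r ≤ ((quo 2 a * 2 ^ corank a : ℕ) : ℝ) := by
      exact_mod_cast (mem_filter.1 ha).2
    rw [mul_comm k r, pow_mul]
    exact pow_le_pow_left₀ (by positivity) h5 k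

end Pool.Agent.Results.MP_a43263_nt.FullFamilyMoments
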