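import Mathlib
import Pool.Agent.Y723.SJ.Def
import Pool.Agent.Y723.SJ.Cmp
import Pool.Agent.Y723.JG.Main
import Pool.Agent.TH344.SG.Cor
import Pool.Agent.X257.JT.PrimeF

/-!
# The 2-part of `Ш` of products of twists of Jacobians at prime arguments

`J_1, …, J_r` are the Jacobians of the curves `y² = (x - a_{j,0}) ... (x - a_{j,2 g_j})` of genus
`g_j` with integral `a_{j,i}`, distinct for each `j`, `D_1, …, D_r` are arbitrary nonzero
polynomials with integer coefficients and `G_1, …, G_n`, `n ≥ 1`, are pairwise different irreducible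
polynomials. Over the integers `t` of an interval `(N, N + M]`, `|N| ≤ M ^ L`, for which all the
`|G_i(t)|` are primes, the sums of all the powers of
`#(A_t(ℚ) / 2 ^ m A_t(ℚ)) ^ (1 / m) * #Ш(A_t)[2 ^ m] ^ (1 / m)` are at most `C M / (log M) ^ n`,
uniformly in `m`, where `A_t = J_1^{D_1(t)} × … × J_r^{D_r(t)}` is the product of the quadratic
twists. For `n = 1` and `G_1 = t` this bounds all the moments over the `A_p`, `p` a prime.

The group of the points of the Jacobian over an algebraically closed field, the absolute Galois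
group, the cocycles and `Ш` are defined in `Pool.Agent.Y723.SJ.Def`.
-/

set_option autoImplicit false

namespace Pool.Agent.Results.MP_a43263_nt.TwistsAtPrimeArguments

open Finset Polynomial Pool.Agent.Y723.SJ Pool.Agent.TH344.SG

/-- The zeros `d a_i` of the quadratic twist by `d ≠ 0` of the curve `y² = ∏ (x - a_i)`: the twist
`d y² = ∏ (x - a_i)` has the model `y² = ∏ (x - d a_i)` (multiply by `d ^ (2 g + 1)`). -/
def tw (d : ℤ) {g : ℕ} (a : Fin (2 * g + 1) → ℤ) : Fin (2 * g + 1) → ℤ := fun i => d * a i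

variable {r : ℕ} {g : Fin r → ℕ} (a : ∀ j, Fin (2 * g j + 1) → ℤ) (D : Fin r → ℤ[X]) (t : ℤ)

open Classical in
/-- the integers `t` with `N < t ≤ N + M` and `D_j(t) ≠ 0` for all `j` for which all the `|G_i(t)|`
are primes -/
noncomputable def Par {r n : ℕ} (D : Fin r → ℤ[X]) (G : Fin n → ℤ[X]) (N : ℤ) (M : ℕ) :
    Finset ℤ :=
  (Ioc N (N + M)).filter (fun t => (∀ j, (D j).eval t ≠ 0) ∧ ∀ i, ((G i).eval t).natAbs.Prime)

/-- `Ш(A_t)`, the product of the groups `Ш(J_j^{D_j(t)})` -/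
def ShaA : Type := ∀ j, Sha (tw ((D j).eval t) (a j))

noncomputable instance instAddCommGroupShaA : AddCommGroup (ShaA a D t) := Pi.addCommGroup

/-- the elements of `Ш(A_t)` killed by `n` -/
def ShaTorsionA (n : ℕ) : Type := {c : ShaA a D t // n • c = 0}

/-- `A_t(ℚ) / n A_t(ℚ)`, the product of the groups `J_j^{D_j(t)}(ℚ) / n J_j^{D_j(t)}(ℚ)` -/
def QuotA (n : ℕ) : Type := ∀ j, QuotQ (tw ((D j).eval t) (a j)) n

/-- the number of the elements of `Ш(A_t)` killed by `n` -/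
noncomputable def sha (n : ℕ) : ℕ := Nat.card (ShaTorsionA a D t n)

/-- the number of the elements of `A_t(ℚ) / n A_t(ℚ)` -/
noncomputable def quo (n : ℕ) : ℕ := Nat.card (QuotA a D t n)

/-- The corank of the 2-primary part of `Ш(A_t)`: the largest `q` such that `(ℤ / 2 ^ n) ^ q` embeds
in `Ш(A_t)` for all `n`. (The 2-primary part is the direct sum of `q` copies of `ℚ_2 / ℤ_2` and a
finite group; it is finite if and only if `q = 0`.) -/
noncomputable def corank : ℕ := corank2 (ShaA a D t)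

lemma tw_inj {d : ℤ} (hd : d ≠ 0) {g : ℕ} {a : Fin (2 * g + 1) → ℤ} (ha : Function.Injective a) :
    Function.Injective (tw d a) := fun i j h => ha (mul_left_cancel₀ hd h)

/-- the torsion of the product -/
def torE (n : ℕ) : (∀ j, ShaTorsion (tw ((D j).eval t) (a j)) n) ≃ ShaTorsionA a D t n where
  toFun x := ⟨fun j => (x j).1, funext fun j => (x j).2⟩
  invFun y := fun j => ⟨y.1 j, congrFun y.2 j⟩
  left_inv _ := rfl
  right_inv _ := rfl

/-- one value of the parameter -/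
lemma one (ha : ∀ j, Function.Injective (a j)) (ht : ∀ j, (D j).eval t ≠ 0) (m : ℕ) :
    Finite (ShaTorsionA a D t (2 ^ m)) ∧ Finite (QuotA a D t (2 ^ m)) ∧
      quo a D t (2 ^ m) * sha a D t (2 ^ m) ≤
        (∏ j, (Pool.Agent.TH344.JG.SelJ (tw ((D j).eval t) (a j))).ncard) ^ m := by
  have hinj := fun j => tw_inj (ht j) (ha j)
  have hfin := fun j => Pool.Agent.Y723.JG.selJ_fin ⟨g j, rfl⟩ (hinj j)
  have h := fun j => sha_sel_pow (hinj j) (hfin j) m
  haveI h1 : ∀ j, Finite (ShaTorsion (tw ((D j).eval t) (a j)) (2 ^ m)) := fun j => (h j).1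
  haveI h2 : ∀ j, Finite (QuotQ (tw ((D j).eval t) (a j)) (2 ^ m)) := fun j => (h j).2.1
  refine ⟨Finite.of_equiv _ (torE a D t (2 ^ m)), ?_, ?_⟩
  · unfold QuotA
    infer_instance
  · have h3 : sha a D t (2 ^ m) = ∏ j, Nat.card (ShaTorsion (tw ((D j).eval t) (a j)) (2 ^ m)) := by
      unfold sha
      rw [← Nat.card_congr (torE a D t (2 ^ m)), Nat.card_pi]
    have h4 : quo a D t (2 ^ m) = ∏ j, Nat.card (QuotQ (tw ((D j).eval t) (a j)) (2 ^ m)) := by
      unfold quo QuotA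
      rw [Nat.card_pi]
    rw [h3, h4, ← prod_mul_distrib, ← prod_pow]
    exact prod_le_prod' fun j _ => (h j).2.2

/-- the corank -/
lemma one_cor (ha : ∀ j, Function.Injective (a j)) (ht : ∀ j, (D j).eval t ≠ 0) :
    quo a D t 2 * 2 ^ corank a D t ≤
        ∏ j, (Pool.Agent.TH344.JG.SelJ (tw ((D j).eval t) (a j))).ncard := by
  obtain ⟨h1, h2, h3⟩ := one a D t ha ht 1
  rw [pow_one, pow_one] at h3
  have h4 := corank2_le (G := ShaA a D t) (n := 1) le_rfl h1
  rw [pow_one] at h4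
  exact (Nat.mul_le_mul_left _ h4).trans h3

/-- **Theorem.** Let `r ≥ 1`, let `J_j`, `1 ≤ j ≤ r`, be the Jacobian of the curve
`y² = (x - a_{j,0}) ... (x - a_{j,2 g_j})` with distinct integers `a_{j,i}`, let `D_j ≠ 0` be
arbitrary polynomials with integer coefficients, let `A_t` be the abelian variety over `ℚ` (of
dimension `g_1 + … + g_r`) that is the product of the quadratic twists of the `J_j` by `D_j(t)`, and
let `G_1, …, G_n`, `n ≥ 1`, be irreducible polynomials of positive degree with integer coefficients,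
pairwise non-associated. For all `s ≥ 1` and `L` there is `C` such that for all integers `M ≥ 2` and
`|N| ≤ M ^ L` and the `t` with `N < t ≤ N + M`, `D_j(t) ≠ 0` for all `j`, for which all the
`|G_i(t)|` are primes: the groups `Ш(A_t)[2 ^ m]` and `A_t(ℚ) / 2 ^ m A_t(ℚ)` are finite, the sum of
`(#(A_t(ℚ) / 2 ^ m A_t(ℚ)) * #Ш(A_t)[2 ^ m]) ^ (s / m)` is at most `C M / (log M) ^ n` for all
`m ≥ 1`, the sum of `(#(A_t(ℚ) / 2 A_t(ℚ)) * 2 ^ corank) ^ s` is at most `C M / (log M) ^ n`, and at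
most `C M / ((log M) ^ n 2 ^ (s q))` of the `t` satisfy
`#(A_t(ℚ) / 2 A_t(ℚ)) * 2 ^ corank ≥ 2 ^ q`, for all `q`. -/
theorem result (hr : 1 ≤ r) (ha : ∀ j, Function.Injective (a j)) (hD : ∀ j, D j ≠ 0)
    {n : ℕ} (_hn : 1 ≤ n) (G : Fin n → ℤ[X]) (hG : ∀ i, Irreducible (G i) ∧ 0 < (G i).natDegree)
    (hG' : ∀ i j, i ≠ j → ¬ Associated (G i) (G j)) (s L : ℕ) (hs : 1 ≤ s) :
    ∃ C : ℝ, ∀ (N : ℤ) (M : ℕ), 2 ≤ M → |N| ≤ (M : ℤ) ^ L →
      (∀ t ∈ Par D G N M, ∀ m : ℕ,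
        Finite (ShaTorsionA a D t (2 ^ m)) ∧ Finite (QuotA a D t (2 ^ m))) ∧
      (∀ m : ℕ, 1 ≤ m → ∑ t ∈ Par D G N M,
        ((quo a D t (2 ^ m) * sha a D t (2 ^ m) : ℕ) : ℝ) ^ ((s : ℝ) / m) ≤
          C * (M / (Real.log M) ^ n)) ∧
      ∑ t ∈ Par D G N M, ((quo a D t 2 * 2 ^ corank a D t : ℕ) : ℝ) ^ s ≤
        C * (M / (Real.log M) ^ n) ∧
      ∀ q : ℕ, (((Par D G N M).filter
        (fun t => 2 ^ q ≤ quo a D t 2 * 2 ^ corank a D t)).card : ℝ) ≤
          C * (M / (Real.log M) ^ n) / 2 ^ (s * q) := by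
  classical
  have hirr : Pool.Agent.TH841.PT.Irr G :=
    ⟨fun i => (hG i).1, fun i => (hG i).2, fun i j hij => hG' i j hij⟩
  obtain ⟨C, hC0, hC⟩ := Pool.Agent.X257.JT.PR.prod_prime hr g a ha hirr D hD s L
  have hPar : ∀ (N : ℤ) (M : ℕ), Par D G N M = (Ioc N (N + M)).filter
      (fun t => (∀ j, (D j).eval t ≠ 0) ∧ Pool.Agent.TH841.PT.AllPr G t) := by
    intro N M
    unfold Par Pool.Agent.TH841.PT.AllPr
    congr
  have hC' : ∀ (N : ℤ) (M : ℕ), 2 ≤ M → |N| ≤ (M : ℤ) ^ L → ∑ t ∈ Par D G N M,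
      ((∏ j, (Pool.Agent.TH344.JG.SelJ (tw ((D j).eval t) (a j))).ncard : ℕ) : ℝ) ^ s ≤
        C * (M / (Real.log M) ^ n) := by
    intro N M hM hN
    rw [hPar]
    exact hC N M hM hN
  have hmem : ∀ {N : ℤ} {M : ℕ} {t : ℤ}, t ∈ Par D G N M → ∀ j, (D j).eval t ≠ 0 := by
    intro N M t ht
    unfold Par at ht
    exact (mem_filter.1 ht).2.1
  have h2 : ∀ (N : ℤ) (M : ℕ), 2 ≤ M → |N| ≤ (M : ℤ) ^ L →
      ∑ t ∈ Par D G N M, ((quo a D t 2 * 2 ^ corank a D t : ℕ) : ℝ) ^ s ≤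
        C * (M / (Real.log M) ^ n) := by
    intro N M hM hN
    refine (sum_le_sum fun t ht => ?_).trans (hC' N M hM hN)
    exact pow_le_pow_left₀ (Nat.cast_nonneg _) (by exact_mod_cast one_cor a D t ha (hmem ht)) s
  refine ⟨C, fun N M hM hN => ⟨fun t ht m => ?_, fun m hm => ?_, h2 N M hM hN, fun q => ?_⟩⟩
  · have h := one a D t ha (hmem ht) m
    exact ⟨h.1, h.2.1⟩
  · refine (sum_le_sum fun t ht => ?_).trans (hC' N M hM hN)
    have h4 : ((quo a D t (2 ^ m) * sha a D t (2 ^ m) : ℕ) : ℝ) ≤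
        ((∏ j, (Pool.Agent.TH344.JG.SelJ (tw ((D j).eval t) (a j))).ncard : ℕ) : ℝ) ^ m := by
      exact_mod_cast (one a D t ha (hmem ht) m).2.2
    have hm0 : (m : ℝ) ≠ 0 := by exact_mod_cast (by omega : m ≠ 0)
    refine (Real.rpow_le_rpow (Nat.cast_nonneg _) h4 (by positivity)).trans (le_of_eq ?_)
    rw [← Real.rpow_natCast, ← Real.rpow_mul (Nat.cast_nonneg _), mul_div_cancel₀ _ hm0,
      Real.rpow_natCast]
  · rw [le_div_iff₀ (by positivity)]
    refine le_trans ?_ (h2 N M hM hN)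
    rw [← nsmul_eq_mul, ← sum_const]
    refine (sum_le_sum fun t ht => ?_).trans
      (sum_le_sum_of_subset_of_nonneg (filter_subset _ _) fun _ _ _ => by positivity)
    have h5 : (2 : ℝ) ^ q ≤ ((quo a D t 2 * 2 ^ corank a D t : ℕ) : ℝ) := by
      exact_mod_cast (mem_filter.1 ht).2
    rw [mul_comm s q, pow_mul]
    exact pow_le_pow_left₀ (by positivity) h5 s

end Pool.Agent.Results.MP_a43263_nt.TwistsAtPrimeArguments
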